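import Mathlib

/-!
# Symmetric linear `(2,p,p)`-all-or-nothing transforms in standard form

For every prime `p > 5` there is no symmetric linear `(2,p,p)`-AONT in standard form.
-/

set_option autoImplicit false

open Finset

namespace Pool.Agent.Results.MP_e1f2d0_co.NoSymmetricAONT

/-- `M` is a linear `(t,s,p)`-AONT over `ZMod p`: the `s × s` matrix `M` is invertible and every
`t × t` submatrix of `M` (chosen by `t` rows and `t` columns) is invertible. -/
def IsLinearAONT {s p : ℕ} (t : ℕ) (M : Matrix (Fin s) (Fin s) (ZMod p)) : Prop :=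
  IsUnit M ∧ ∀ r c : Fin t ↪o Fin s, IsUnit (M.submatrix r c)

/-- Standard form of a `p × p` matrix over `ZMod p` (rows and columns are numbered from `0`):
the top left entry is `0`, the other entries of the first row and of the first column are `1`, and
all diagonal entries other than possibly the last one are `0`. -/
structure IsStandardForm {p : ℕ} (M : Matrix (Fin p) (Fin p) (ZMod p)) : Prop where
  corner : ∀ i : Fin p, i.val = 0 → M i i = 0
  border : ∀ i j : Fin p, i.val = 0 → j.val ≠ 0 → M i j = 1 ∧ M j i = 1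
  diag : ∀ i : Fin p, i.val ≠ 0 → i.val + 1 ≠ p → M i i = 0

section signs

lemma exists_count (f : ℕ → ℤ) (m : ℕ) (hf : ∀ k < m, f k = 1 ∨ f k = -1) :
    ∃ c : ℕ, ∏ k ∈ range m, f k = (-1) ^ c ∧ ∑ k ∈ range m, f k = (m : ℤ) - 2 * c := by
  induction m with
  | zero => exact ⟨0, by simp⟩
  | succ m ih =>
    obtain ⟨c, h1, h2⟩ := ih fun k hk => hf k (by omega)
    rcases hf m (by omega) with h | h
    · refine ⟨c, ?_, ?_⟩
      · rw [prod_range_succ, h1, h, mul_one]
      · rw [sum_range_succ, h2, h]; push_cast; ring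
    · refine ⟨c + 1, ?_, ?_⟩
      · rw [prod_range_succ, h1, h, pow_succ]
      · rw [sum_range_succ, h2, h]; push_cast; ring

lemma no_seq (a : ℕ → ℤ) (m : ℕ) (ha : ∀ k, a k = 1 ∨ a k = -1)
    (hm : ∀ k, a (k + m) = - a k)
    (h1 : ∑ k ∈ range m, a k * a (k + 1) = 0)
    (h2 : ∑ k ∈ range m, a k * a (k + 2) = 0) : False := by
  have hsq : ∀ k, a k * a k = 1 := fun k => by rcases ha k with h | h <;> rw [h] <;> norm_num
  have p1 : ∀ m, ∏ k ∈ range m, a k * a (k + 1) = a 0 * a m := by
    intro m
    induction m with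
    | zero => simp [hsq]
    | succ m ih =>
      rw [prod_range_succ, ih]
      calc a 0 * a m * (a m * a (m + 1)) = a 0 * (a m * a m) * a (m + 1) := by ring
        _ = a 0 * a (m + 1) := by rw [hsq, mul_one]
  have p2 : ∀ m, ∏ k ∈ range m, a k * a (k + 2) = a 0 * a 1 * (a m * a (m + 1)) := by
    intro m
    induction m with
    | zero =>
      simp only [range_zero, prod_empty, zero_add]
      calc (1 : ℤ) = (a 0 * a 0) * (a 1 * a 1) := by rw [hsq, hsq, one_mul]
        _ = _ := by ring
    | succ m ih =>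
      rw [prod_range_succ, ih]
      calc a 0 * a 1 * (a m * a (m + 1)) * (a m * a (m + 2))
          = a 0 * a 1 * (a m * a m) * (a (m + 1) * a (m + 2)) := by ring
        _ = a 0 * a 1 * (a (m + 1) * a (m + 1 + 1)) := by rw [hsq, mul_one]
  have hmul : ∀ i j, a i * a j = 1 ∨ a i * a j = -1 := fun i j => by
    rcases ha i with h | h <;> rcases ha j with h' | h' <;> rw [h, h'] <;> norm_num
  obtain ⟨c, hc1, hc2⟩ := exists_count (fun k => a k * a (k + 1)) m fun k _ => hmul _ _
  obtain ⟨d, hd1, hd2⟩ := exists_count (fun k => a k * a (k + 2)) m fun k _ => hmul _ _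
  have hcd : c = d := by
    rw [h1] at hc2
    rw [h2] at hd2
    omega
  rw [p1] at hc1
  rw [p2, ← hcd, ← hc1] at hd1
  have e0 : a m = - a 0 := by simpa using hm 0
  have e1 : a (m + 1) = - a 1 := by rw [add_comm]; exact hm 1
  rw [e0, e1] at hd1
  have : a 0 * a 1 * (-a 0 * -a 1) = (a 0 * a 0) * (a 1 * a 1) := by ring
  rw [this, hsq, hsq] at hd1
  have : a 0 * -a 0 = - (a 0 * a 0) := by ring
  rw [this, hsq] at hd1
  norm_num at hd1

end signs

section corr

variable {F : Type*} [Field F] [Fintype F] [DecidableEq F]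

/-- A `±1` function on the units, odd, whose autocorrelation vanishes outside `±1`, cannot exist
if there are more than four units. -/
lemma no_sign (hF : (-1 : Fˣ) ≠ 1) (hcard : 4 < Fintype.card Fˣ) (e : Fˣ → ℤ)
    (he : ∀ u, e u = 1 ∨ e u = -1) (hneg : ∀ u, e (-u) = - e u)
    (hc : ∀ v : Fˣ, v ≠ 1 → v ≠ -1 → ∑ u, e u * e (v * u) = 0) : False := by
  obtain ⟨g, hg⟩ := IsCyclic.exists_generator (α := Fˣ)
  have hord : orderOf g = Fintype.card Fˣ := orderOf_eq_card_of_forall_mem_zpowers hg
    |>.trans Nat.card_eq_fintype_card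
  set n := Fintype.card Fˣ with hn
  have himg : Finset.image (fun i => g ^ i) (range (orderOf g)) = univ :=
    IsCyclic.image_range_orderOf hg
  have hsum : ∀ f : Fˣ → ℤ, ∑ u, f u = ∑ k ∈ range n, f (g ^ k) := by
    intro f
    rw [← himg, sum_image, hord]
    intro i hi j hj hij
    exact pow_injOn_Iio_orderOf (by simpa using hi) (by simpa using hj) hij
  -- the order is even
  obtain ⟨k, hk, hgk⟩ : ∃ k ∈ range n, g ^ k = -1 := by
    have : (-1 : Fˣ) ∈ (univ : Finset Fˣ) := mem_univ _
    rw [← himg, hord] at this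
    simpa using this
  have hkn : k < n := mem_range.1 hk
  have hk2 : n = 2 * k := by
    have h1 : g ^ (2 * k) = 1 := by rw [mul_comm, pow_mul, hgk]; simp
    have h2 : n ∣ 2 * k := by rw [← hord]; exact orderOf_dvd_of_pow_eq_one h1
    obtain ⟨c, hc'⟩ := h2
    have hk0 : k ≠ 0 := by
      rintro rfl
      exact hF (by rw [← hgk, pow_zero])
    have hc1 : c < 2 := by
      by_contra hcc
      have : n * 2 ≤ n * c := Nat.mul_le_mul_left _ (by omega)
      omega
    have hc0 : c ≠ 0 := by
      rintro rfl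
      omega
    have : c = 1 := by omega
    rw [this] at hc'
    omega
  have hga : ∀ j, 0 < j → j < n → g ^ j ≠ 1 := by
    intro j h0 hj h
    have := Nat.le_of_dvd h0 (hord ▸ orderOf_dvd_of_pow_eq_one h)
    omega
  have hgb : ∀ j, 0 < j → j < k → g ^ j ≠ -1 := by
    intro j h0 hj h
    have h1 : g ^ (2 * j) = 1 := by rw [mul_comm, pow_mul, h]; simp
    exact hga (2 * j) (by omega) (by omega) h1
  have hm : ∀ j, e (g ^ (j + k)) = - e (g ^ j) := by
    intro j
    rw [pow_add, hgk, mul_neg, mul_one, hneg]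
  have key : ∀ t, 0 < t → t < k → ∑ j ∈ range k, e (g ^ j) * e (g ^ (j + t)) = 0 := by
    intro t h0 ht
    have h1 := hc (g ^ t) (hga t h0 (by omega)) (hgb t h0 ht)
    rw [hsum] at h1
    have h2 : n = k + k := by omega
    rw [h2, sum_range_add] at h1
    have h3 : ∑ x ∈ range k, e (g ^ (k + x)) * e (g ^ t * g ^ (k + x)) =
        ∑ j ∈ range k, e (g ^ j) * e (g ^ (j + t)) := by
      refine sum_congr rfl fun j _ => ?_
      have e1 : g ^ (k + j) = g ^ (j + k) := by rw [add_comm]
      have e2 : g ^ t * g ^ (k + j) = g ^ (j + t + k) := by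
        rw [← pow_add]; congr 1; omega
      rw [e2, e1, hm, hm]; ring
    have h4 : ∑ x ∈ range k, e (g ^ x) * e (g ^ t * g ^ x) =
        ∑ j ∈ range k, e (g ^ j) * e (g ^ (j + t)) := by
      refine sum_congr rfl fun j _ => ?_
      rw [← pow_add, add_comm t j]
    rw [h3, h4] at h1
    omega
  exact no_seq (fun j => e (g ^ j)) k (fun j => he _) hm (key 1 (by omega) (by omega))
    (key 2 (by omega) (by omega))

lemma no_count (hF : (-1 : Fˣ) ≠ 1) (hcard : 4 < Fintype.card Fˣ) (N : Fˣ → ℤ)
    (hN : ∀ u, 0 ≤ N u) (hsum : ∑ u, N u = Fintype.card Fˣ)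
    (hc : ∀ v : Fˣ, ∑ u, N u * N (v * u) =
      (Fintype.card Fˣ : ℤ) * (1 + (if v = 1 then 1 else 0) - (if v = -1 then 1 else 0))) :
    False := by
  set n : ℤ := (Fintype.card Fˣ : ℤ) with hn
  have h0 : ∀ u, N u * N (-u) = 0 := by
    have h := hc (-1)
    rw [if_neg hF, if_pos rfl] at h
    have h' : ∑ u, N u * N (-1 * u) = 0 := by rw [h]; ring
    intro u
    have := (sum_eq_zero_iff_of_nonneg (fun u _ => mul_nonneg (hN u) (hN _))).1 h' u (mem_univ u)
    simpa using this
  have h1 : ∑ u, N u * N u = 2 * n := by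
    have h := hc 1
    rw [if_pos rfl, if_neg (Ne.symm hF)] at h
    simp only [one_mul] at h
    rw [h]; ring
  have hnegsum : ∀ f : Fˣ → ℤ, ∑ u, f (-u) = ∑ u, f u := fun f =>
    Fintype.sum_equiv (Equiv.neg Fˣ) _ _ fun u => by simp
  have h2 : ∑ u, (N u + N (-u) - 2) ^ 2 = 0 := by
    have e1 : ∀ u, (N u + N (-u) - 2) ^ 2 =
        N u * N u + N (-u) * N (-u) - 4 * N u - 4 * N (-u) + 4 := by
      intro u
      have := h0 u
      linear_combination 2 * this
    simp only [e1]
    rw [sum_add_distrib, sum_sub_distrib, sum_sub_distrib, sum_add_distrib, ← mul_sum,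
      ← mul_sum, hnegsum (fun u => N u * N u), hnegsum N, h1, hsum]
    simp only [sum_const, card_univ, nsmul_eq_mul]
    rw [← hn]
    ring
  have h3 : ∀ u, N u + N (-u) = 2 := by
    intro u
    have := (sum_eq_zero_iff_of_nonneg (fun u _ => sq_nonneg _)).1 h2 u (mem_univ u)
    have := pow_eq_zero_iff (two_ne_zero) |>.1 this
    omega
  have h4 : ∀ u, N u = 0 ∨ N u = 2 := by
    intro u
    rcases mul_eq_zero.1 (h0 u) with h | h
    · exact Or.inl h
    · right; have := h3 u; omega
  refine no_sign hF hcard (fun u => N u - 1) ?_ ?_ ?_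
  · intro u
    rcases h4 u with h | h <;> simp [h]
  · intro u
    have := h3 u
    omega
  · intro v hv1 hv2
    have hmulsum : ∑ u, N (v * u) = ∑ u, N u :=
      Fintype.sum_equiv (Equiv.mulLeft v) _ _ fun u => by simp
    have e1 : ∀ u, (N u - 1) * (N (v * u) - 1) = N u * N (v * u) - N u - N (v * u) + 1 := by
      intro u; ring
    simp only [e1]
    rw [sum_add_distrib, sum_sub_distrib, sum_sub_distrib, hc v, hmulsum, hsum, if_neg hv1,
      if_neg hv2]
    simp only [sum_const, card_univ, nsmul_eq_mul]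
    rw [← hn]
    ring

end corr

section cover

variable {F : Type*} [Field F] [Fintype F] [DecidableEq F]
variable {ι : Type*} [Fintype ι] [DecidableEq ι]

lemma prod_nonzero : ∏ x ∈ univ.erase (0 : F), x = -1 := by
  have h := congrArg (fun u : Fˣ => (u : F)) (FiniteField.prod_univ_units_id_eq_neg_one (K := F))
  simp only [Units.coe_prod, Units.val_neg, Units.val_one] at h
  rw [← h]
  symm
  refine prod_bij (fun (u : Fˣ) _ => (u : F)) ?_ ?_ ?_ ?_
  · intro u _; simp
  · intro u _ v _ huv; exact Units.ext huv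
  · intro x hx
    exact ⟨Units.mk0 x (by simpa using hx), mem_univ _, rfl⟩
  · intro u _; rfl

lemma cover_full (s : Finset ι) (f : ι → F) (h0 : ∀ j ∈ s, f j ≠ 0)
    (hinj : ∀ j ∈ s, ∀ j' ∈ s, f j = f j' → j = j') (hcard : s.card + 1 = Fintype.card F) :
    ∏ j ∈ s, f j = -1 ∧ ∀ x, x ≠ 0 → ∃ j ∈ s, f j = x := by
  have hinj' : Set.InjOn f s := fun j hj j' hj' h => hinj j hj j' hj' h
  have himg : s.image f = univ.erase (0 : F) := by
    apply eq_of_subset_of_card_le
    · intro x hx
      obtain ⟨j, hj, rfl⟩ := mem_image.1 hx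
      simpa using h0 j hj
    · rw [card_image_of_injOn hinj', card_erase_of_mem (mem_univ _), card_univ]
      omega
  constructor
  · rw [← prod_nonzero (F := F), ← himg, prod_image hinj']
  · intro x hx
    have : x ∈ s.image f := by rw [himg]; simpa using hx
    simpa using this

lemma cover_miss (s : Finset ι) (f : ι → F) (h0 : ∀ j ∈ s, f j ≠ 0)
    (hinj : ∀ j ∈ s, ∀ j' ∈ s, f j = f j' → j = j') (hcard : s.card + 2 = Fintype.card F) :
    (∀ x, x ≠ 0 → x ≠ -(∏ j ∈ s, f j)⁻¹ → ∃ j ∈ s, f j = x) ∧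
      ∀ j ∈ s, f j ≠ -(∏ j ∈ s, f j)⁻¹ := by
  have hinj' : Set.InjOn f s := fun j hj j' hj' h => hinj j hj j' hj' h
  have hsub : s.image f ⊆ univ.erase (0 : F) := by
    intro x hx
    obtain ⟨j, hj, rfl⟩ := mem_image.1 hx
    simpa using h0 j hj
  have hc : (univ.erase (0 : F) \ s.image f).card = 1 := by
    rw [card_sdiff_of_subset hsub, card_image_of_injOn hinj', card_erase_of_mem (mem_univ _),
      card_univ]
    omega
  obtain ⟨w, hw⟩ := card_eq_one.1 hc
  have hprod : w * ∏ j ∈ s, f j = -1 := by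
    have h := prod_sdiff (f := fun x : F => x) hsub
    rw [hw, prod_singleton, prod_image hinj', prod_nonzero] at h
    exact h
  have hP : ∏ j ∈ s, f j ≠ 0 := prod_ne_zero_iff.2 h0
  have hw' : w = -(∏ j ∈ s, f j)⁻¹ := by
    field_simp
    exact hprod
  rw [← hw']
  have hmem : ∀ x, x ∈ univ.erase (0 : F) \ s.image f ↔ x = w := by
    intro x; rw [hw, mem_singleton]
  constructor
  · intro x hx hxw
    by_contra hcon
    apply hxw
    rw [← hmem, mem_sdiff]
    refine ⟨by simpa using hx, ?_⟩
    intro h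
    apply hcon
    simpa using h
  · intro j hj hjw
    have := (hmem (f j)).2 hjw
    rw [mem_sdiff] at this
    exact this.2 (mem_image_of_mem f hj)

/-- Product of the off-diagonal entries of row `i`. -/
def R (M : ι → ι → F) (i : ι) : F := ∏ j ∈ univ.erase i, M i j

lemma R_ne (M : ι → ι → F) (hoff : ∀ i j, i ≠ j → M i j ≠ 0) (i : ι) : R M i ≠ 0 :=
  prod_ne_zero_iff.2 fun j hj => hoff i j (by simpa [eq_comm] using hj)

lemma ratio_rows (M : ι → ι → F) (hcard : Fintype.card ι = Fintype.card F)
    (hs : ∀ i j, M i j = M j i) (hoff : ∀ i j, i ≠ j → M i j ≠ 0)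
    (hm : ∀ i i' j j', i ≠ i' → j ≠ j' → M i j * M i' j' ≠ M i j' * M i' j)
    (i i' : ι) (hi : i ≠ i') :
    (∀ x, x ≠ 0 → x ≠ -(R M i' / R M i) → ∃ j, j ≠ i ∧ j ≠ i' ∧ M i j = x * M i' j) ∧
      ∀ j, j ≠ i → j ≠ i' → M i j ≠ -(R M i' / R M i) * M i' j := by
  have hRi := R_ne M hoff i
  have hRi' := R_ne M hoff i'
  set s := (univ.erase i).erase i' with hsdef
  have hmem : ∀ j, j ∈ s ↔ j ≠ i ∧ j ≠ i' := by
    intro j; simp [hsdef, and_comm]
  have hc : s.card + 2 = Fintype.card F := by
    rw [hsdef, card_erase_of_mem (by simp [hi.symm]), card_erase_of_mem (mem_univ _), card_univ,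
      hcard]
    have : 1 < Fintype.card F := Fintype.one_lt_card
    omega
  have hprod : ∏ j ∈ s, (M i j / M i' j) = R M i / R M i' := by
    rw [prod_div_distrib]
    have e1 : R M i = M i i' * ∏ j ∈ s, M i j := by
      unfold R
      rw [hsdef, mul_prod_erase _ _ (by simp [hi.symm])]
    have e2 : R M i' = M i' i * ∏ j ∈ s, M i' j := by
      unfold R
      rw [hsdef, erase_right_comm, mul_prod_erase _ _ (by simp [hi])]
    rw [e1, e2, hs i' i]
    have h1 : M i i' ≠ 0 := hoff _ _ hi
    rw [mul_div_mul_left _ _ h1]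
  obtain ⟨h1, h2⟩ := cover_miss s (fun j => M i j / M i' j)
    (fun j hj => div_ne_zero (hoff _ _ ((hmem j).1 hj).1.symm) (hoff _ _ ((hmem j).1 hj).2.symm))
    (by
      intro j hj j' hj' h
      by_contra hne
      have a1 : M i' j ≠ 0 := hoff _ _ ((hmem j).1 hj).2.symm
      have a2 : M i' j' ≠ 0 := hoff _ _ ((hmem j').1 hj').2.symm
      rw [div_eq_div_iff a1 a2] at h
      exact hm i i' j j' hi hne h) hc
  rw [hprod] at h1 h2
  have hinv : -(R M i / R M i')⁻¹ = -(R M i' / R M i) := by rw [inv_div]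
  rw [hinv] at h1 h2
  constructor
  · intro x hx hx'
    obtain ⟨j, hj, hjx⟩ := h1 x hx hx'
    obtain ⟨a1, a2⟩ := (hmem j).1 hj
    refine ⟨j, a1, a2, ?_⟩
    have : M i' j ≠ 0 := hoff _ _ a2.symm
    rw [← hjx, div_mul_cancel₀ _ this]
  · intro j a1 a2 h
    apply h2 j ((hmem j).2 ⟨a1, a2⟩)
    have : M i' j ≠ 0 := hoff _ _ a2.symm
    rw [h, mul_div_assoc, div_self this, mul_one]

end cover

section typeOne

variable {F : Type*} [Field F] [Fintype F] [DecidableEq F]
variable {ι : Type*} [Fintype ι] [DecidableEq ι]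

/-- Type `p - 1`: exactly one nonzero diagonal entry. -/
lemma no_typeOne (M : ι → ι → F) (hcard : Fintype.card ι = Fintype.card F)
    (hF : 3 < Fintype.card F)
    (hs : ∀ i j, M i j = M j i)
    (hm : ∀ i i' j j', i ≠ i' → j ≠ j' → M i j * M i' j' ≠ M i j' * M i' j)
    (z : ι) (hz : M z z ≠ 0) (hd : ∀ i, i ≠ z → M i i = 0) : False := by
  have hoff : ∀ i j, i ≠ j → M i j ≠ 0 := by
    intro i j hij h
    apply hm i j i j hij hij
    rw [h, zero_mul]
    by_cases hi : i = z
    · rw [hd j (by rintro rfl; exact hij hi), mul_zero]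
    · rw [hd i hi, zero_mul]
  have hzj : ∀ j, M z j ≠ 0 := by
    intro j
    by_cases h : j = z
    · rw [h]; exact hz
    · exact hoff _ _ (Ne.symm h)
  have hMz : ∀ i, M i z = M z i := fun i => hs i z
  -- rows `i` and `z`
  have hinjz : ∀ i, i ≠ z → ∀ j j', M i j / M z j = M i j' / M z j' → j = j' := by
    intro i hi j j' h
    by_contra hne
    rw [div_eq_div_iff (hzj j) (hzj j')] at h
    exact hm i z j j' hi hne h
  have hfull : ∀ i, i ≠ z → (∏ j ∈ univ.erase i, (M i j / M z j) = -1 ∧
      ∀ x, x ≠ 0 → ∃ j ∈ univ.erase i, M i j / M z j = x) := by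
    intro i hi
    refine cover_full (univ.erase i) (fun j => M i j / M z j) ?_ ?_ ?_
    · intro j hj
      exact div_ne_zero (hoff _ _ (by simpa [eq_comm] using hj)) (hzj j)
    · intro j _ j' _ h
      exact hinjz i hi j j' h
    · rw [card_erase_of_mem (mem_univ _), card_univ, hcard]
      omega
  have hR : ∀ i, i ≠ z → R M i * M z i = -∏ j, M z j := by
    intro i hi
    have h := (hfull i hi).1
    rw [prod_div_distrib] at h
    have hP : ∏ j ∈ univ.erase i, M z j ≠ 0 := prod_ne_zero_iff.2 fun j _ => hzj j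
    rw [div_eq_iff hP] at h
    unfold R
    rw [h, ← mul_prod_erase univ (fun j => M z j) (mem_univ i)]
    ring
  have hP : ∏ j, M z j ≠ 0 := prod_ne_zero_iff.2 fun j _ => hzj j
  have hRR : ∀ i i', i ≠ z → i' ≠ z → R M i' / R M i = M z i / M z i' := by
    intro i i' hi hi'
    have h1 := hR i hi
    have h2 := hR i' hi'
    rw [div_eq_div_iff (R_ne M hoff i) (hzj i'), h2, ← h1, mul_comm]
  -- the rescaled matrix
  set A : ι → ι → F := fun i j => M i j / (M z i * M z j) with hA
  have hAs : ∀ i j, A i j = A j i := by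
    intro i j
    simp only [hA]
    rw [hs i j, mul_comm (M z i)]
  have hAB : ∀ i j, A i j = (M i j / M z j) / M z i := by
    intro i j
    simp only [hA]
    rw [div_div, mul_comm (M z i)]
  have hC : ∀ i, i ≠ z → ∀ j j', A i j = A i j' → j = j' := by
    intro i hi j j' h
    rw [hAB, hAB, div_left_inj' (hzj i)] at h
    exact hinjz i hi j j' h
  have hAz : ∀ i, A i z = 1 / M z z := by
    intro i
    simp only [hA]
    rw [hMz, div_mul_eq_div_div, div_self (hzj i)]
  have hB1 : ∀ i, i ≠ z → ∀ x, x ≠ 0 → x ≠ 1 / M z z → ∃ j, j ≠ i ∧ j ≠ z ∧ A i j = x := by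
    intro i hi x hx hx'
    obtain ⟨j, hj, hjx⟩ := (hfull i hi).2 (x * M z i) (mul_ne_zero hx (hzj i))
    have hAj : A i j = x := by
      rw [hAB, hjx, mul_div_assoc, div_self (hzj i), mul_one]
    refine ⟨j, by simpa using hj, ?_, hAj⟩
    rintro rfl
    exact hx' (by rw [← hAj, hAz])
  have hB2 : ∀ i j, i ≠ z → j ≠ z → A i j ≠ 1 / M z z := by
    intro i j hi hj h
    rw [← hAz i] at h
    exact hj (hC i hi _ _ h)
  have hA1 : ∀ i i', i ≠ z → i' ≠ z → i ≠ i' → ∀ v, v ≠ 0 → v ≠ 1 → v ≠ -1 →
      ∃ j, j ≠ i ∧ j ≠ z ∧ A i j = v * A i' j := by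
    intro i i' hi hi' hii v hv0 hv1 hvn
    obtain ⟨j, h1, h2, h3⟩ := (ratio_rows M hcard hs hoff hm i i' hii).1 (v * (M z i / M z i'))
      (mul_ne_zero hv0 (div_ne_zero (hzj i) (hzj i')))
      (by
        rw [hRR i i' hi hi']
        intro h
        apply hvn
        have : M z i / M z i' ≠ 0 := div_ne_zero (hzj i) (hzj i')
        have h' : v * (M z i / M z i') = (-1) * (M z i / M z i') := by rw [h]; ring
        exact mul_right_cancel₀ this h')
    have hAj : A i j = v * A i' j := by
      simp only [hA]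
      rw [h3]
      have a1 := hzj i
      have a2 := hzj i'
      have a3 := hzj j
      field_simp
    refine ⟨j, h1, ?_, hAj⟩
    rintro rfl
    rw [hAz, hAz] at hAj
    apply hv1
    have : (1 : F) / M j j ≠ 0 := one_div_ne_zero hz
    exact (mul_eq_right₀ this).1 hAj.symm
  -- choose `v` and `i`
  obtain ⟨v, hv⟩ : ∃ v : F, v ∉ ({0, 1, -1} : Finset F) := by
    by_contra hcon
    push Not at hcon
    have : (univ : Finset F) ⊆ {0, 1, -1} := fun x _ => hcon x
    have := card_le_card this
    rw [card_univ] at this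
    have := this.trans (card_le_three)
    omega
  simp only [mem_insert, mem_singleton, not_or] at hv
  obtain ⟨hv0, hv1, hvn⟩ := hv
  obtain ⟨i, hi⟩ : ∃ i, i ≠ z := by
    have : 1 < Fintype.card ι := by omega
    exact Fintype.exists_ne_of_one_lt_card this z
  -- the injective map
  have hex : ∀ i' : {j : ι // j ≠ i ∧ j ≠ z}, ∃ j : {j : ι // j ≠ i ∧ j ≠ z},
      A i j = v * A i' j := by
    rintro ⟨i', h1, h2⟩
    obtain ⟨j, a1, a2, a3⟩ := hA1 i i' hi h2 (Ne.symm h1) v hv0 hv1 hvn
    exact ⟨⟨j, a1, a2⟩, a3⟩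
  choose φ hφ using hex
  have hφinj : Function.Injective φ := by
    intro a b hab
    have h1 := hφ a
    have h2 := hφ b
    rw [hab] at h1
    rw [h1] at h2
    have h3 := mul_left_cancel₀ hv0 h2
    rw [hAs a, hAs b] at h3
    exact Subtype.ext (hC _ (φ b).2.2 _ _ h3)
  have hφsurj : Function.Surjective φ := Finite.injective_iff_surjective.1 hφinj
  obtain ⟨j, b1, b2, b3⟩ := hB1 i hi (v * (1 / M z z)) (mul_ne_zero hv0 (one_div_ne_zero hz))
    (by
      intro h
      exact hv1 ((mul_eq_right₀ (one_div_ne_zero hz)).1 h))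
  obtain ⟨i', hi'⟩ := hφsurj ⟨j, b1, b2⟩
  have h1 := hφ i'
  rw [hi'] at h1
  simp only at h1
  rw [b3] at h1
  have h2 := mul_left_cancel₀ hv0 h1
  exact hB2 i' j i'.2.2 b2 h2.symm

end typeOne

section typeZero

variable {F : Type*} [Field F] [Fintype F] [DecidableEq F]
variable {ι : Type*} [Fintype ι] [DecidableEq ι]

/-- Number of entries `u` in row `i`. -/
def N (A : ι → ι → F) (i : ι) (u : F) : ℤ := ∑ j, if A i j = u then 1 else 0

lemma double_count (A : ι → ι → F) (hs : ∀ i j, A i j = A j i) (hd : ∀ i, A i i = 0)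
    (hoff : ∀ i j, i ≠ j → A i j ≠ 0)
    (hone : ∀ i i', i ≠ i' → ∀ x, x ≠ 0 →
      ∑ j, (if A i j = x * A i' j then (1 : ℤ) else 0) = if x = -1 then 0 else 1)
    (i l : ι) (hil : i ≠ l) (x : F) (hx : x ≠ 0) (k : ι) :
    ∑ j, (if A i j * A k l = x * A j k then (1 : ℤ) else 0) =
      1 - (if A k l = -x then 1 else 0) +
        (if k = i then (if A i l = x then (Fintype.card ι : ℤ) - 1 else 0) +
          (if A i l = -x then 1 else 0) else 0) := by
  have hx' : (0 : F) ≠ -x := by
    intro h
    exact hx (neg_eq_zero.1 h.symm)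
  by_cases hkl : k = l
  · subst hkl
    rw [if_neg (Ne.symm hil), hd, if_neg hx']
    have : ∀ j, (A i j * 0 = x * A j k) ↔ j = k := by
      intro j
      rw [mul_zero]
      constructor
      · intro h
        by_contra hne
        exact mul_ne_zero hx (hoff _ _ hne) h.symm
      · rintro rfl
        rw [hd, mul_zero]
    simp only [this]
    simp
  · by_cases hki : k = i
    · subst hki
      rw [if_pos rfl]
      have : ∀ j, (A k j * A k l = x * A j k) ↔ (A k l = x ∨ j = k) := by
        intro j
        rw [hs j k, mul_comm x]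
        constructor
        · intro h
          by_cases hj : j = k
          · exact Or.inr hj
          · exact Or.inl (mul_left_cancel₀ (hoff _ _ (Ne.symm hj)) h)
        · rintro (h | h)
          · rw [h]
          · rw [h, hd, zero_mul, zero_mul]
      simp only [this]
      by_cases h1 : A k l = x
      · simp only [h1, true_or, if_true]
        simp only [sum_const, card_univ, nsmul_eq_mul, mul_one]
        ring
      · simp only [h1, false_or, if_false]
        simp
    · rw [if_neg hki]
      have hkl' : A k l ≠ 0 := hoff _ _ hkl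
      have : ∀ j, (A i j * A k l = x * A j k) ↔ A i j = (x / A k l) * A k j := by
        intro j
        rw [hs j k]
        constructor
        · intro h
          field_simp
          exact h
        · intro h
          rw [h]
          field_simp
      simp only [this]
      rw [hone i k (Ne.symm hki) _ (div_ne_zero hx hkl')]
      have h2 : x / A k l = -1 ↔ A k l = -x := by
        rw [div_eq_iff hkl']
        constructor
        · intro h; rw [h]; ring
        · intro h; rw [h]; ring
      by_cases h3 : A k l = -x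
      · rw [if_pos (h2.2 h3), if_pos h3]; ring
      · rw [if_neg (fun h => h3 (h2.1 h)), if_neg h3]; ring

lemma N_eq (A : ι → ι → F) (hs : ∀ i j, A i j = A j i) (hd : ∀ i, A i i = 0)
    (hoff : ∀ i j, i ≠ j → A i j ≠ 0)
    (hone : ∀ i i', i ≠ i' → ∀ x, x ≠ 0 →
      ∑ j, (if A i j = x * A i' j then (1 : ℤ) else 0) = if x = -1 then 0 else 1)
    (i l : ι) (u : F) (hu : u ≠ 0) : N A i u = N A l u := by
  by_cases hil : i = l
  · rw [hil]
  have hx : -u ≠ 0 := neg_ne_zero.2 hu
  have h1 : ∑ k, ∑ j, (if A i j * A k l = (-u) * A j k then (1 : ℤ) else 0) =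
      ∑ k, ∑ j, (if A l j * A k i = (-u) * A j k then (1 : ℤ) else 0) := by
    rw [sum_comm]
    refine sum_congr rfl fun j _ => sum_congr rfl fun k _ => ?_
    have : (A i j * A k l = -u * A j k) ↔ (A l k * A j i = -u * A k j) := by
      rw [hs l k, hs j i, hs k j, mul_comm (A k l)]
    simp only [this]
  simp only [double_count A hs hd hoff hone i l hil (-u) hx,
    double_count A hs hd hoff hone l i (Ne.symm hil) (-u) hx, sum_add_distrib, sum_sub_distrib,
    sum_ite_eq', mem_univ, if_true, hs l i, neg_neg] at h1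
  unfold N
  have e1 : ∑ j, (if A i j = u then (1 : ℤ) else 0) = ∑ j, if A j i = u then 1 else 0 :=
    sum_congr rfl fun j _ => by rw [hs i j]
  have e2 : ∑ j, (if A l j = u then (1 : ℤ) else 0) = ∑ j, if A j l = u then 1 else 0 :=
    sum_congr rfl fun j _ => by rw [hs l j]
  rw [e1, e2]
  linarith

lemma corr (A : ι → ι → F) (hs : ∀ i j, A i j = A j i) (hd : ∀ i, A i i = 0)
    (hoff : ∀ i j, i ≠ j → A i j ≠ 0)
    (hone : ∀ i i', i ≠ i' → ∀ x, x ≠ 0 →
      ∑ j, (if A i j = x * A i' j then (1 : ℤ) else 0) = if x = -1 then 0 else 1)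
    (hF : (-1 : F) ≠ 1) (i : ι) (v : F) (hv : v ≠ 0) :
    ∑ u : Fˣ, N A i u * N A i (v⁻¹ * u) = ((Fintype.card ι : ℤ) - 1) *
      (1 + (if v = 1 then 1 else 0) - (if v = -1 then 1 else 0)) := by
  have h1 : ∀ i', ∑ j, (if A i j = v * A i' j then (1 : ℤ) else 0) =
      (if v = -1 then 0 else 1) + (if i' = i then
        ((if v = 1 then (Fintype.card ι : ℤ) else 1) - (if v = -1 then 0 else 1)) else 0) := by
    intro i'
    by_cases h : i' = i
    · subst h
      rw [if_pos rfl]
      by_cases hv1 : v = 1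
      · simp [hv1]
      · rw [if_neg hv1]
        have : ∀ j, (A i' j = v * A i' j) ↔ j = i' := by
          intro j
          constructor
          · intro h
            by_contra hne
            apply hv1
            have h3 := hoff _ _ (Ne.symm hne)
            exact (mul_eq_right₀ h3).1 h.symm
          · rintro rfl
            rw [hd, mul_zero]
        simp [this]
    · rw [if_neg h, hone i i' (Ne.symm h) v hv, add_zero]
  have h2 : ∀ j, ∑ i', (if A i j = v * A i' j then (1 : ℤ) else 0) =
      (if j = i then 1 else 0) +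
        ∑ u : Fˣ, (if A i j = u then 1 else 0) * N A i (v⁻¹ * u) := by
    intro j
    by_cases h : j = i
    · subst h
      rw [if_pos rfl, hd]
      have e1 : ∀ i', ((0 : F) = v * A i' j) ↔ i' = j := by
        intro i'
        constructor
        · intro h
          by_contra hne
          exact mul_ne_zero hv (hoff _ _ hne) h.symm
        · rintro rfl
          rw [hd, mul_zero]
      have e2 : ∀ u : Fˣ, ¬ ((0 : F) = u) := fun u h => u.ne_zero h.symm
      simp [e1, e2]
    · rw [if_neg h, zero_add]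
      have h3 : A i j ≠ 0 := hoff _ _ (Ne.symm h)
      have e1 : ∀ u : Fˣ, (A i j = u) ↔ u = Units.mk0 (A i j) h3 := by
        intro u
        rw [Units.ext_iff, Units.val_mk0, eq_comm]
      simp only [e1, ite_mul, one_mul, zero_mul, sum_ite_eq', mem_univ, if_true, Units.val_mk0]
      rw [N_eq A hs hd hoff hone i j _ (mul_ne_zero (inv_ne_zero hv) h3)]
      unfold N
      refine sum_congr rfl fun i' _ => ?_
      have : (A i j = v * A i' j) ↔ (A j i' = v⁻¹ * A i j) := by
        rw [hs j i', eq_inv_mul_iff_mul_eq₀ hv, eq_comm]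
      simp only [this]
  have h3 := sum_comm (s := univ) (t := univ)
    (f := fun i' j => (if A i j = v * A i' j then (1 : ℤ) else 0))
  simp only [h1, h2, sum_add_distrib, sum_ite_eq', mem_univ, if_true] at h3
  rw [sum_comm] at h3
  have h4 : ∀ u : Fˣ, ∑ j, (if A i j = u then (1 : ℤ) else 0) * N A i (v⁻¹ * u) =
      N A i u * N A i (v⁻¹ * u) := by
    intro u
    rw [← sum_mul]
    rfl
  simp only [h4] at h3
  have h5 : ∑ u : Fˣ, N A i u * N A i (v⁻¹ * u) =
      (∑ x : ι, (if v = -1 then (0 : ℤ) else 1)) +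
      ((if v = 1 then (Fintype.card ι : ℤ) else 1) - (if v = -1 then 0 else 1)) - 1 := by
    rw [h3]; ring
  rw [h5]
  simp only [sum_const, card_univ, nsmul_eq_mul]
  by_cases hv1 : v = 1
  · rw [if_pos hv1, if_pos hv1, if_neg (by rw [hv1]; exact Ne.symm hF), if_neg (by
      rw [hv1]; exact Ne.symm hF)]
    ring
  · by_cases hv2 : v = -1
    · rw [if_neg hv1, if_neg hv1, if_pos hv2, if_pos hv2]
      ring
    · rw [if_neg hv1, if_neg hv1, if_neg hv2, if_neg hv2]
      ring

/-- Type `p`: all diagonal entries are zero. -/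
lemma no_typeZero (M : ι → ι → F) (hcard : Fintype.card ι = Fintype.card F)
    (hF : (-1 : F) ≠ 1) (hF5 : 5 < Fintype.card F)
    (hs : ∀ i j, M i j = M j i)
    (hm : ∀ i i' j j', i ≠ i' → j ≠ j' → M i j * M i' j' ≠ M i j' * M i' j)
    (hd : ∀ i, M i i = 0) : False := by
  have hoff : ∀ i j, i ≠ j → M i j ≠ 0 := by
    intro i j hij h
    apply hm i j i j hij hij
    rw [h, zero_mul, hd, zero_mul]
  have hR := R_ne M hoff
  set A : ι → ι → F := fun i j => R M i * R M j * M i j with hA
  have hAs : ∀ i j, A i j = A j i := by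
    intro i j
    simp only [hA]
    rw [hs i j]; ring
  have hAd : ∀ i, A i i = 0 := by
    intro i
    simp only [hA]
    rw [hd, mul_zero]
  have hAoff : ∀ i j, i ≠ j → A i j ≠ 0 := by
    intro i j hij
    exact mul_ne_zero (mul_ne_zero (hR i) (hR j)) (hoff i j hij)
  have hAm : ∀ i i' j j', i ≠ i' → j ≠ j' → A i j * A i' j' ≠ A i j' * A i' j := by
    intro i i' j j' h1 h2 h3
    apply hm i i' j j' h1 h2
    simp only [hA] at h3
    have h4 : (R M i * R M j * R M i' * R M j') * (M i j * M i' j') =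
        (R M i * R M j * R M i' * R M j') * (M i j' * M i' j) := by
      linear_combination h3
    exact mul_left_cancel₀ (mul_ne_zero (mul_ne_zero (mul_ne_zero (hR i) (hR j)) (hR i'))
      (hR j')) h4
  have hone : ∀ i i', i ≠ i' → ∀ x, x ≠ 0 →
      ∑ j, (if A i j = x * A i' j then (1 : ℤ) else 0) = if x = -1 then 0 else 1 := by
    intro i i' hi x hx
    obtain ⟨h1, h2⟩ := ratio_rows M hcard hs hoff hm i i' hi
    by_cases hx1 : x = -1
    · rw [if_pos hx1]
      refine sum_eq_zero fun j _ => ?_
      rw [if_neg]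
      intro h
      by_cases hj : j = i
      · subst hj
        rw [hAd] at h
        exact mul_ne_zero hx (hAoff _ _ (Ne.symm hi)) h.symm
      by_cases hj' : j = i'
      · subst hj'
        rw [hAd, mul_zero] at h
        exact hAoff _ _ hi h
      apply h2 j hj hj'
      simp only [hA] at h
      rw [hx1] at h
      have e1 := hR i
      have e2 := hR j
      have h4 : R M j * (R M i * M i j) = R M j * (-(R M i' * M i' j)) := by
        linear_combination h
      have h5 := mul_left_cancel₀ e2 h4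
      field_simp
      linear_combination h5
    · rw [if_neg hx1]
      have hx0 : x * (R M i' / R M i) ≠ 0 := mul_ne_zero hx (div_ne_zero (hR _) (hR _))
      obtain ⟨j, b1, b2, b3⟩ := h1 (x * (R M i' / R M i)) hx0 (by
        intro h
        apply hx1
        have h' : x * (R M i' / R M i) = (-1) * (R M i' / R M i) := by rw [h]; ring
        exact mul_right_cancel₀ (div_ne_zero (hR _) (hR _)) h')
      have hAj : A i j = x * A i' j := by
        simp only [hA]
        rw [b3]
        have e1 := hR i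
        field_simp
      have : ∀ k, (A i k = x * A i' k) ↔ k = j := by
        intro k
        constructor
        · intro h
          by_contra hne
          apply hAm i i' k j hi hne
          rw [h, hAj]; ring
        · rintro rfl
          exact hAj
      simp [this]
  -- choose a row
  have hpos : 0 < Fintype.card ι := by omega
  obtain ⟨i⟩ := Fintype.card_pos_iff.1 hpos
  have hcu : Fintype.card Fˣ = Fintype.card ι - 1 := by rw [Fintype.card_units, hcard]
  have hcu' : (Fintype.card Fˣ : ℤ) = (Fintype.card ι : ℤ) - 1 := by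
    rw [hcu]
    push_cast [Nat.cast_sub (show 1 ≤ Fintype.card ι by omega)]
    ring
  have hneg : (-1 : Fˣ) ≠ 1 := by
    intro h
    apply hF
    have := congrArg (fun u : Fˣ => (u : F)) h
    simpa using this
  refine no_count hneg (by omega) (fun u : Fˣ => N A i u) ?_ ?_ ?_
  · intro u
    unfold N
    exact sum_nonneg fun j _ => by split_ifs <;> norm_num
  · unfold N
    rw [sum_comm, hcu']
    have : ∀ j, ∑ u : Fˣ, (if A i j = u then (1 : ℤ) else 0) = 1 - if j = i then 1 else 0 := by
      intro j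
      by_cases h : j = i
      · subst h
        have e2 : ∀ u : Fˣ, ¬ ((0 : F) = u) := fun u h => u.ne_zero h.symm
        simp [hAd, e2]
      · have h3 : A i j ≠ 0 := hAoff _ _ (Ne.symm h)
        have e1 : ∀ u : Fˣ, (A i j = u) ↔ u = Units.mk0 (A i j) h3 := by
          intro u
          rw [Units.ext_iff, Units.val_mk0, eq_comm]
        simp [e1, h]
    simp only [this, sum_sub_distrib, sum_ite_eq', mem_univ, if_true]
    simp
  · intro v
    have h := corr A hAs hAd hAoff hone hF i (v⁻¹ : Fˣ) (Units.ne_zero _)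
    rw [hcu']
    have e1 : ((v⁻¹ : Fˣ) : F) = 1 ↔ v = 1 := by
      rw [← Units.val_one, ← Units.ext_iff, inv_eq_one]
    have e2 : ((v⁻¹ : Fˣ) : F) = -1 ↔ v = -1 := by
      rw [← Units.val_one, ← Units.val_neg, ← Units.ext_iff, inv_eq_iff_eq_inv]
      simp
    simp only [e1, e2] at h
    rw [← h]
    refine sum_congr rfl fun u _ => ?_
    simp

end typeZero

/-- For every prime `p > 5` there is no symmetric linear `(2,p,p)`-AONT in standard form. -/
theorem result (p : ℕ) (hp : p.Prime) (h5 : 5 < p) :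
    ¬ ∃ M : Matrix (Fin p) (Fin p) (ZMod p),
      M.IsSymm ∧ IsStandardForm M ∧ IsLinearAONT 2 M := by
  rintro ⟨M, hsymm, hst, -, haont⟩
  haveI : Fact p.Prime := ⟨hp⟩
  have hs : ∀ i j, M i j = M j i := fun i j => (hsymm.apply i j).symm
  have hlt : ∀ i i' j j' : Fin p, i < i' → j < j' → M i j * M i' j' ≠ M i j' * M i' j := by
    intro i i' j j' hi hj h
    have hr : StrictMono (![i, i'] : Fin 2 → Fin p) := by
      intro a b hab
      fin_cases a <;> fin_cases b <;> simp_all
    have hc : StrictMono (![j, j'] : Fin 2 → Fin p) := by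
      intro a b hab
      fin_cases a <;> fin_cases b <;> simp_all
    have hu := haont (OrderEmbedding.ofStrictMono _ hr) (OrderEmbedding.ofStrictMono _ hc)
    rw [Matrix.isUnit_iff_isUnit_det, isUnit_iff_ne_zero, Matrix.det_fin_two] at hu
    apply hu
    simp [h]
  have hm : ∀ i i' j j' : Fin p, i ≠ i' → j ≠ j' → M i j * M i' j' ≠ M i j' * M i' j := by
    intro i i' j j' hi hj h
    rcases lt_or_gt_of_ne hi with h1 | h1 <;> rcases lt_or_gt_of_ne hj with h2 | h2
    · exact hlt i i' j j' h1 h2 h
    · exact hlt i i' j' j h1 h2 h.symm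
    · exact hlt i' i j j' h1 h2 (by rw [mul_comm, ← h, mul_comm])
    · exact hlt i' i j' j h1 h2 (by rw [mul_comm, h, mul_comm])
  have hcard : Fintype.card (Fin p) = Fintype.card (ZMod p) := by
    rw [Fintype.card_fin, ZMod.card]
  have hF : (-1 : ZMod p) ≠ 1 := by
    haveI : Fact (2 < p) := ⟨by omega⟩
    exact ZMod.neg_one_ne_one
  have hd : ∀ i : Fin p, i.val + 1 ≠ p → M i i = 0 := by
    intro i hi
    by_cases h0 : i.val = 0
    · exact hst.corner i h0
    · exact hst.diag i h0 hi
  set z : Fin p := ⟨p - 1, by omega⟩ with hz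
  by_cases hzz : M z z = 0
  · refine no_typeZero M hcard hF (by rw [ZMod.card]; exact h5) hs hm ?_
    intro i
    by_cases hi : i.val + 1 = p
    · have : i = z := Fin.ext (by simp [hz]; omega)
      rw [this]; exact hzz
    · exact hd i hi
  · refine no_typeOne M hcard (by rw [ZMod.card]; omega) hs hm z hzz ?_
    intro i hi
    apply hd
    intro h
    exact hi (Fin.ext (by simp [hz]; omega))

end Pool.Agent.Results.MP_e1f2d0_co.NoSymmetricAONT
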